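import Pool.Agent.Y571.UB.Stm

/-!
# UB-CON: the distance at time `t` is at most the Poisson tail plus the distance after `n` steps
-/

set_option autoImplicit false

open Finset Filter Topology
open Pool.Agent.H632R3.RCG

namespace Pool.Agent.Y239.UB

variable {G : Type} [Group G] [Fintype G] {k : ℕ}

omit [Fintype G] in
open Classical in
lemma card_eq (Z : Fin k → G) (T : ℕ) (g : G) : stepLaw Z T g =
    (∑ w : Fin T → Fin k, if (List.ofFn fun j => Z (w j)).prod = g then (1 : ℝ) else 0) /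
      (k : ℝ) ^ T := by
  unfold stepLaw
  rw [Finset.sum_boole]

lemma step_succ (Z : Fin k → G) (T : ℕ) (g : G) :
    stepLaw Z (T + 1) g = (1 / (k : ℝ)) * ∑ i, stepLaw Z T ((Z i)⁻¹ * g) := by
  classical
  simp only [card_eq]
  rw [← Finset.sum_div, ← (Fin.consEquiv (fun _ : Fin (T + 1) => Fin k)).sum_comp,
    Fintype.sum_prod_type]
  have h : ∀ (i : Fin k) (w : Fin T → Fin k),
      ((List.ofFn fun j => Z ((Fin.consEquiv (fun _ : Fin (T + 1) => Fin k)) (i, w) j)).prod = g ↔
        (List.ofFn fun j => Z (w j)).prod = (Z i)⁻¹ * g) := by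
    intro i w
    rw [List.ofFn_succ, List.prod_cons, eq_inv_mul_iff_mul_eq]
    rfl
  simp only [h]
  rw [pow_succ, one_div, div_eq_mul_inv, div_eq_mul_inv, mul_inv]
  ring

/-- twice the distance -/
noncomputable def E (Z : Fin k → G) (T : ℕ) : ℝ :=
  ∑ g : G, |stepLaw Z T g - 1 / (Fintype.card G : ℝ)|

lemma E_nonneg (Z : Fin k → G) (T : ℕ) : 0 ≤ E Z T := sum_nonneg fun _ _ => abs_nonneg _

lemma E_succ (hk : 0 < k) (Z : Fin k → G) (T : ℕ) : E Z (T + 1) ≤ E Z T := by
  have hk' : (0 : ℝ) < k := by exact_mod_cast hk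
  have h1 : ∀ g : G, |stepLaw Z (T + 1) g - 1 / (Fintype.card G : ℝ)| ≤
      (1 / (k : ℝ)) * ∑ i, |stepLaw Z T ((Z i)⁻¹ * g) - 1 / (Fintype.card G : ℝ)| := by
    intro g
    have h2 : stepLaw Z (T + 1) g - 1 / (Fintype.card G : ℝ) =
        (1 / (k : ℝ)) * ∑ i, (stepLaw Z T ((Z i)⁻¹ * g) - 1 / (Fintype.card G : ℝ)) := by
      rw [step_succ, sum_sub_distrib, sum_const, card_univ, Fintype.card_fin, nsmul_eq_mul,
        mul_sub, ← mul_assoc, one_div_mul_cancel hk'.ne', one_mul]
    rw [h2, abs_mul, abs_of_pos (by positivity : (0 : ℝ) < 1 / k)]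
    exact mul_le_mul_of_nonneg_left (abs_sum_le_sum_abs _ _) (by positivity)
  have h3 : ∀ i, ∑ g : G, |stepLaw Z T ((Z i)⁻¹ * g) - 1 / (Fintype.card G : ℝ)| = E Z T := by
    intro i
    exact Equiv.sum_comp (Equiv.mulLeft (Z i)⁻¹)
      (fun g => |stepLaw Z T g - 1 / (Fintype.card G : ℝ)|)
  calc E Z (T + 1) ≤ ∑ g : G, (1 / (k : ℝ)) *
        ∑ i, |stepLaw Z T ((Z i)⁻¹ * g) - 1 / (Fintype.card G : ℝ)| := sum_le_sum fun g _ => h1 g
    _ = (1 / (k : ℝ)) * ∑ i, ∑ g : G, |stepLaw Z T ((Z i)⁻¹ * g) - 1 / (Fintype.card G : ℝ)| := by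
      rw [← mul_sum, sum_comm]
    _ = E Z T := by
      rw [sum_congr rfl fun i _ => h3 i, sum_const, card_univ, Fintype.card_fin, nsmul_eq_mul,
        ← mul_assoc, one_div_mul_cancel hk'.ne', one_mul]

lemma E_anti (hk : 0 < k) (Z : Fin k → G) {n T : ℕ} (h : n ≤ T) : E Z T ≤ E Z n :=
  antitone_nat_of_succ_le (E_succ hk Z) h

lemma E_le (hk : 0 < k) (Z : Fin k → G) (T : ℕ) : E Z T ≤ 2 := by
  have hN : (0 : ℝ) < Fintype.card G := by exact_mod_cast Fintype.card_pos
  have h1 : E Z T ≤ ∑ g : G, (stepLaw Z T g + 1 / (Fintype.card G : ℝ)) := by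
    refine sum_le_sum fun g _ => ?_
    have h2 := stepLaw_nonneg Z T g
    have h3 : 0 ≤ 1 / (Fintype.card G : ℝ) := by positivity
    rw [abs_le]
    constructor <;> linarith
  have h4 : ∑ g : G, (stepLaw Z T g + 1 / (Fintype.card G : ℝ)) = 2 := by
    rw [sum_add_distrib, stepLaw_sum hk Z T univ fun _ => mem_univ _, sum_const, card_univ,
      nsmul_eq_mul, mul_one_div_cancel hN.ne']
    norm_num
  linarith

theorem con : Pool.Agent.Y571.UB.S_CON := by
  intro G _ _ n k Z t hk ht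
  have hp : HasSum (pois t) 1 := poisson_hasSum t
  have h1 : ∀ g : G, HasSum (fun T => pois t T * (stepLaw Z T g - 1 / (Fintype.card G : ℝ)))
      (law Z t g - 1 / (Fintype.card G : ℝ)) := by
    intro g
    have h2 := (law_hasSum hk Z ht g).sub (hp.mul_right (1 / (Fintype.card G : ℝ)))
    rw [one_mul] at h2
    refine h2.congr_fun fun T => ?_
    ring
  have hE2 : ∀ (T : ℕ) (g : G), |stepLaw Z T g - 1 / (Fintype.card G : ℝ)| ≤ 2 := fun T g =>
    (single_le_sum (f := fun g => |stepLaw Z T g - 1 / (Fintype.card G : ℝ)|)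
      (fun _ _ => abs_nonneg _) (mem_univ g)).trans (E_le hk Z T)
  have hs : ∀ g : G, Summable
      (fun T => pois t T * |stepLaw Z T g - 1 / (Fintype.card G : ℝ)|) := fun g =>
    Summable.of_nonneg_of_le (fun T => mul_nonneg (pois_nonneg ht T) (abs_nonneg _))
      (fun T => mul_le_mul_of_nonneg_left (hE2 T g) (pois_nonneg ht T))
      (hp.summable.mul_right 2)
  have h3 : ∀ g : G, |law Z t g - 1 / (Fintype.card G : ℝ)| ≤
      ∑' T, pois t T * |stepLaw Z T g - 1 / (Fintype.card G : ℝ)| := by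
    intro g
    rw [abs_le]
    constructor
    · have h4 := hasSum_le (fun T => ?_) (hs g).hasSum.neg (h1 g)
      · exact h4
      · rw [← mul_neg]
        exact mul_le_mul_of_nonneg_left (neg_abs_le _) (pois_nonneg ht T)
    · exact hasSum_le (fun T => mul_le_mul_of_nonneg_left (le_abs_self _) (pois_nonneg ht T))
        (h1 g) (hs g).hasSum
  have h5 := hasSum_sum (s := (univ : Finset G)) fun g _ => (hs g).hasSum
  have h6 : HasSum (fun T => pois t T * E Z T)
      (∑ g : G, ∑' T, pois t T * |stepLaw Z T g - 1 / (Fintype.card G : ℝ)|) := by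
    refine h5.congr_fun fun T => ?_
    unfold E
    rw [mul_sum]
  have h7 : HasSum (fun T => (if T ∈ range n then pois t T * 2 else 0) + pois t T * E Z n)
      (∑ T ∈ range n, pois t T * 2 + 1 * E Z n) := by
    refine HasSum.add ?_ (hp.mul_right _)
    have h8 : HasSum (fun T => if T ∈ range n then pois t T * 2 else 0)
        (∑ T ∈ range n, if T ∈ range n then pois t T * 2 else 0) :=
      hasSum_sum_of_ne_finset_zero (fun T hT => if_neg hT)
    rwa [sum_congr rfl fun T hT => if_pos hT] at h8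
  have h9 : ∑ g : G, ∑' T, pois t T * |stepLaw Z T g - 1 / (Fintype.card G : ℝ)| ≤
      ∑ T ∈ range n, pois t T * 2 + 1 * E Z n := by
    refine hasSum_le (fun T => ?_) h6 h7
    have hp0 := pois_nonneg ht T
    by_cases hT : T ∈ range n
    · rw [if_pos hT]
      have h10 := mul_le_mul_of_nonneg_left (E_le hk Z T) hp0
      have h11 := mul_nonneg hp0 (E_nonneg Z n)
      linarith
    · rw [if_neg hT, zero_add]
      rw [mem_range, not_lt] at hT
      exact mul_le_mul_of_nonneg_left (E_anti hk Z hT) hp0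
  have h12 : ∑ g : G, |law Z t g - 1 / (Fintype.card G : ℝ)| ≤
      ∑ T ∈ range n, pois t T * 2 + 1 * E Z n := (sum_le_sum fun g _ => h3 g).trans h9
  rw [← sum_mul] at h12
  unfold tvDist
  change _ ≤ ∑ T ∈ range n, pois t T + (1 / 2) * E Z n
  linarith

end Pool.Agent.Y239.UB
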